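import Pool.Agent.W257.CStm

/-!
Three small lemmas about composita and the field generated by all the roots of a polynomial
(subtask ESG-C456).
-/

open Polynomial Finset

namespace Pool.Agent.W571.ESG

open Pool.Agent.W257

theorem main_fld : S_fld := by
  intro k K₁ K₂ h₁ h₂ _ _
  have hsup : k ≤ K₁ ⊔ K₂ := h₁.trans le_sup_left
  have t : ∀ (K : IntermediateField ℚ ℝ) (h : k ≤ K),
      Module.finrank ℚ k * Module.finrank k (IntermediateField.extendScalars h) =
        Module.finrank ℚ K := fun K h =>
    Module.finrank_mul_finrank ℚ k (IntermediateField.extendScalars h)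
  have h3 := IntermediateField.finrank_sup_le (IntermediateField.extendScalars h₁)
    (IntermediateField.extendScalars h₂)
  rw [IntermediateField.extendScalars_sup h₁ h₂] at h3
  rw [← t _ hsup, ← t _ h₁, ← t _ h₂]
  calc _ = Module.finrank ℚ k * Module.finrank ℚ k *
        Module.finrank k (IntermediateField.extendScalars hsup) := by ring
    _ ≤ Module.finrank ℚ k * Module.finrank ℚ k *
        (Module.finrank k (IntermediateField.extendScalars h₁) *
          Module.finrank k (IntermediateField.extendScalars h₂)) := Nat.mul_le_mul le_rfl h3
    _ = _ := by ring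

theorem main_span : S_span := by
  intro K₁ K₂ S₁ S₂ _ _ h₁ h₂
  have e₁ : Submodule.span ℚ S₁ = Subalgebra.toSubmodule K₁.toSubalgebra := SetLike.coe_injective h₁
  have e₂ : Submodule.span ℚ S₂ = Subalgebra.toSubmodule K₂.toSubalgebra := SetLike.coe_injective h₂
  have h := Subalgebra.mul_toSubmodule K₁.toSubalgebra K₂.toSubalgebra
  rw [← e₁, ← e₂, Submodule.span_mul_span, ← IntermediateField.sup_toSubalgebra_of_left] at h
  have h' := congrArg (fun M : Submodule ℚ ℝ => (M : Set ℝ)) h
  exact h'

section Roots

theorem finrank_adjoin_roots {L : Type} [Field L] (m : ℕ) :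
    ∀ (F : Type) [Field F] [Algebra F L] (p : F[X]) (β : Fin m → L), p.Monic →
      p.map (algebraMap F L) = ∏ i, (X - C (β i)) →
      Module.finrank F (IntermediateField.adjoin F (Set.range β)) ≤ m.factorial := by
  induction m with
  | zero =>
    intro F _ _ p β _ _
    have : Set.range β = ∅ := Set.range_eq_empty β
    rw [this, IntermediateField.adjoin_empty, IntermediateField.finrank_bot]
    simp
  | succ m ih =>
    intro F _ _ p β hp hm
    set K₁ := IntermediateField.adjoin F {β 0} with hK₁
    have hroot : aeval (β 0) p = 0 := by
      rw [aeval_def, ← eval_map, hm, eval_prod]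
      exact Finset.prod_eq_zero (Finset.mem_univ 0) (by simp)
    have hint : IsIntegral F (β 0) := ⟨p, hp, by rw [← aeval_def]; exact hroot⟩
    have hdeg : p.natDegree = m + 1 := by
      rw [← natDegree_map (algebraMap F L), hm, natDegree_prod_of_monic _ _ (fun i _ => monic_X_sub_C _)]
      simp
    have h1 : Module.finrank F K₁ ≤ m + 1 := by
      rw [hK₁, IntermediateField.adjoin.finrank hint]
      exact (natDegree_le_of_dvd (minpoly.dvd F _ hroot) hp.ne_zero).trans hdeg.le
    -- the quotient polynomial over `K₁`
    let b0 : K₁ := ⟨β 0, IntermediateField.mem_adjoin_simple_self F (β 0)⟩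
    have hb0 : algebraMap K₁ L b0 = β 0 := rfl
    have hdvd : (X - C b0) ∣ p.map (algebraMap F K₁) := by
      rw [dvd_iff_isRoot, IsRoot, eval_map]
      apply (algebraMap K₁ L).injective
      rw [hom_eval₂, hb0, map_zero, ← IsScalarTower.algebraMap_eq F K₁ L, ← aeval_def, hroot]
    obtain ⟨q, hq⟩ := hdvd
    have hqm : q.Monic := by
      have h2 : (p.map (algebraMap F K₁)).Monic := hp.map _
      rw [hq] at h2
      exact (monic_X_sub_C b0).of_mul_monic_left h2
    have hq2 : q.map (algebraMap K₁ L) = ∏ i : Fin m, (X - C (β i.succ)) := by
      have h2 : (p.map (algebraMap F K₁)).map (algebraMap K₁ L) = ∏ i, (X - C (β i)) := by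
        rw [Polynomial.map_map, ← IsScalarTower.algebraMap_eq F K₁ L, hm]
      rw [hq, Polynomial.map_mul, Fin.prod_univ_succ] at h2
      have h7 : (X - C b0 : K₁[X]).map (algebraMap K₁ L) = X - C (β 0) := by
        rw [Polynomial.map_sub, Polynomial.map_X, Polynomial.map_C, hb0]
      rw [h7] at h2
      exact mul_left_cancel₀ (X_sub_C_ne_zero _) h2
    have h3 := ih K₁ q (fun i => β i.succ) hqm hq2
    have h4 : IntermediateField.adjoin F (Set.range β) =
        (IntermediateField.adjoin K₁ (Set.range fun i : Fin m => β i.succ)).restrictScalars F := by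
      rw [hK₁, IntermediateField.adjoin_adjoin_left]
      congr 1
      ext x
      simp only [Set.mem_range, Set.mem_union, Set.mem_singleton_iff, Fin.exists_fin_succ]
      constructor
      · rintro (h | h)
        · exact Or.inl h.symm
        · exact Or.inr h
      · rintro (h | h)
        · exact Or.inl h.symm
        · exact Or.inr h
    rw [h4]
    have h5 : Module.finrank F K₁ * Module.finrank K₁
        (IntermediateField.adjoin K₁ (Set.range fun i : Fin m => β i.succ)) =
        Module.finrank F (IntermediateField.adjoin K₁ (Set.range fun i : Fin m => β i.succ)) :=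
      Module.finrank_mul_finrank F K₁ _
    change Module.finrank F (IntermediateField.adjoin K₁ (Set.range fun i : Fin m => β i.succ)) ≤ _
    rw [← h5, Nat.factorial_succ]
    exact Nat.mul_le_mul h1 h3

end Roots

theorem main_roots : S_roots := by
  intro m g β hg hdeg hm
  have hroot : ∀ j, aeval (β j) g = 0 := by
    intro j
    have : (g.map (Int.castRingHom ℝ)).eval (β j) = 0 := by
      rw [hm, eval_prod]
      exact Finset.prod_eq_zero (Finset.mem_univ j) (by simp)
    rw [eval_map] at this
    rw [aeval_def]
    exact this
  have hint : ∀ j, IsIntegral ℚ (β j) := by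
    intro j
    have h1 : IsIntegral ℤ (β j) := ⟨g, hg, by
      have := hroot j
      rwa [aeval_def] at this⟩
    exact h1.tower_top
  have hfd : FiniteDimensional ℚ (IntermediateField.adjoin ℚ (Set.range β)) := by
    have : Finite (Set.range β) := Set.finite_range β |>.to_subtype
    exact IntermediateField.finiteDimensional_adjoin (by
      rintro x ⟨j, rfl⟩
      exact hint j)
  refine ⟨hfd, ?_, ?_⟩
  · refine finrank_adjoin_roots m ℚ (g.map (Int.castRingHom ℚ)) β (hg.map _) ?_
    rw [Polynomial.map_map, ← hm]
    congr 1
  · set M := Submodule.span ℚ {x : ℝ | ∃ k : Fin m → ℕ, (∀ i, k i < m) ∧ x = ∏ i, β i ^ k i}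
      with hM
    have hsub : (IntermediateField.adjoin ℚ (Set.range β)).toSubalgebra =
        Algebra.adjoin ℚ (Set.range β) := by
      apply IntermediateField.adjoin_toSubalgebra_of_isAlgebraic
      rintro x ⟨j, rfl⟩
      exact (hint j).isAlgebraic
    have hpow : ∀ j, β j ^ m = ∑ l ∈ range m, -(g.coeff l : ℝ) * β j ^ l := by
      intro j
      have h1 := hroot j
      rw [aeval_eq_sum_range, hdeg, Finset.sum_range_succ] at h1
      have h2 : g.coeff m = 1 := by rw [← hdeg]; exact hg
      rw [h2, one_smul] at h1
      have h3 : β j ^ m = -∑ l ∈ range m, g.coeff l • β j ^ l := by linarith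
      rw [h3, ← Finset.sum_neg_distrib]
      refine Finset.sum_congr rfl fun l _ => ?_
      rw [zsmul_eq_mul]
      ring
    have hmul : ∀ j, ∀ y ∈ M, β j * y ∈ M := by
      intro j y hy
      induction hy using Submodule.span_induction with
      | mem x hx =>
        obtain ⟨k, hk, rfl⟩ := hx
        by_cases hj : k j + 1 < m
        · apply Submodule.subset_span
          refine ⟨Function.update k j (k j + 1), ?_, ?_⟩
          · intro i
            by_cases hi : i = j
            · subst hi; simpa using hj
            · simpa [Function.update_of_ne hi] using hk i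
          · rw [← Finset.mul_prod_erase _ _ (Finset.mem_univ j),
              ← Finset.mul_prod_erase (s := univ) (f := fun i => β i ^ Function.update k j (k j + 1) i) (Finset.mem_univ j)]
            rw [Function.update_self, pow_succ]
            rw [Finset.prod_congr rfl (g := fun i => β i ^ k i) (s₁ := univ.erase j)
              (f := fun i => β i ^ Function.update k j (k j + 1) i) (fun i hi => by
              rw [Function.update_of_ne (Finset.ne_of_mem_erase hi)])]
            ring
        · have hkj : k j + 1 = m := by have := hk j; omega
          rw [← Finset.mul_prod_erase _ _ (Finset.mem_univ j), ← mul_assoc, ← pow_succ', hkj, hpow,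
            Finset.sum_mul]
          refine Submodule.sum_mem _ fun l hl => ?_
          rw [Finset.mem_range] at hl
          have : -(g.coeff l : ℝ) * β j ^ l * ∏ x ∈ univ.erase j, β x ^ k x =
              (-(g.coeff l : ℚ)) • ∏ i, β i ^ Function.update k j l i := by
            rw [← Finset.mul_prod_erase (s := univ) (f := fun i => β i ^ Function.update k j l i) (Finset.mem_univ j)]
            rw [Function.update_self]
            rw [Finset.prod_congr rfl (g := fun i => β i ^ k i) (s₁ := univ.erase j) (f := fun i => β i ^ Function.update k j l i) (fun i hi => by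
              rw [Function.update_of_ne (Finset.ne_of_mem_erase hi)])]
            rw [Rat.smul_def]
            push_cast
            ring
          rw [this]
          refine Submodule.smul_mem _ _ (Submodule.subset_span ⟨_, ?_, rfl⟩)
          intro i
          by_cases hi : i = j
          · subst hi; simpa using hl
          · simpa [Function.update_of_ne hi] using hk i
      | zero => simp
      | add x y _ _ hx hy => rw [mul_add]; exact M.add_mem hx hy
      | smul a x _ hx => rw [mul_smul_comm]; exact M.smul_mem a hx
    have hone : (1 : ℝ) ∈ M := by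
      apply Submodule.subset_span
      refine ⟨fun _ => 0, fun i => ?_, by simp⟩
      exact lt_of_le_of_lt (Nat.zero_le _) i.2
    have hadj : ∀ x ∈ Algebra.adjoin ℚ (Set.range β), ∀ y ∈ M, x * y ∈ M := by
      intro x hx
      induction hx using Algebra.adjoin_induction with
      | mem x hx => obtain ⟨j, rfl⟩ := hx; exact hmul j
      | algebraMap r =>
        intro y hy
        rw [← Algebra.smul_def]
        exact M.smul_mem _ hy
      | add x y _ _ hx hy => intro z hz; rw [add_mul]; exact M.add_mem (hx z hz) (hy z hz)
      | mul x y _ _ hx hy => intro z hz; rw [mul_assoc]; exact hx _ (hy z hz)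
    apply Set.Subset.antisymm
    · have : M ≤ Subalgebra.toSubmodule (IntermediateField.adjoin ℚ (Set.range β)).toSubalgebra := by
        rw [hM, Submodule.span_le]
        rintro x ⟨k, _, rfl⟩
        change _ ∈ IntermediateField.adjoin ℚ (Set.range β)
        exact prod_mem fun i _ => pow_mem (IntermediateField.subset_adjoin _ _ (Set.mem_range_self i)) _
      exact this
    · intro x hx
      have hx' : x ∈ (IntermediateField.adjoin ℚ (Set.range β)).toSubalgebra := hx
      rw [hsub] at hx'
      have := hadj x hx' 1 hone
      rwa [mul_one] at this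

end Pool.Agent.W571.ESG
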